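import Pool.Agent.Y987.SZ.PolyV

set_option autoImplicit false

/-!
# Splittings `n = x + y` with `x + n y` and `x² + n y²` almost prime, and progressions of such `x`
-/

namespace Pool.Agent.Results.MP_5e9b96_nt.AlmostPrimePairs

/-- `0 < x < n`, `y = n - x`, and neither `x + n y` nor `x² + n y²` has a prime factor `≤ z`. -/
def Rough (n : ℕ) (z : ℝ) (x : ℕ) : Prop :=
  0 < x ∧ x < n ∧ ∀ p : ℕ, p.Prime → (p ∣ x + n * (n - x) ∨ p ∣ x ^ 2 + n * (n - x) ^ 2) → z < (p : ℝ)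

/-- `0 < x < n`, `y = n - x`, and `x + n y`, `x² + n y²` have at most `r` prime factors (with
multiplicity), all larger than `z`. -/
def Almost (n r : ℕ) (z : ℝ) (x : ℕ) : Prop :=
  Rough n z x ∧ (x + n * (n - x)).primeFactorsList.length ≤ r ∧
    (x ^ 2 + n * (n - x) ^ 2).primeFactorsList.length ≤ r

open Classical in
/-- the number of the classes `c` modulo `p` for which `p` divides `c + n (n - c)` or
`c² + n (n - c)²` -/
noncomputable def nu (n p : ℕ) : ℕ :=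
  ((Finset.range p).filter (fun c : ℕ => (p : ℤ) ∣ (c : ℤ) + n * ((n : ℤ) - c) ∨
    (p : ℤ) ∣ (c : ℤ) ^ 2 + n * ((n : ℤ) - c) ^ 2)).card

/-- the sieve density: the product of `1 - ν(p) / p` over the primes `p ≤ z` -/
noncomputable def V (n : ℕ) (z : ℝ) : ℝ :=
  ∏ p ∈ (Finset.Ioc 0 ⌊z⌋₊).filter Nat.Prime, (1 - (nu n p : ℝ) / p)

/-- `m` is a term of a progression of `k` terms of `S` with a difference `d`, `1 ≤ d ≤ L`. -/
def InProgression (k : ℕ) (L : ℝ) (S : Set ℕ) (m : ℕ) : Prop :=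
  ∃ a d : ℕ, 1 ≤ d ∧ (d : ℝ) ≤ L ∧ (∀ j < k, a + j * d ∈ S) ∧ ∃ j < k, m = a + j * d

open Finset Filter
open Pool.Agent.Y987.SZ
open Pool.Agent.Y987.SZ.PolyU (RoughF ZF Per InP adm_of)
open Pool.Agent.Y843.HS (Pr VV)

/-- the values -/
def ff (n : ℕ) (e : ℤ) (a : ℕ) : ℤ :=
  if e = 0 then (a : ℤ) + n * ((n : ℤ) - a) else (a : ℤ) ^ 2 + n * ((n : ℤ) - a) ^ 2

lemma ff0 (n a : ℕ) : ff n 0 a = (a : ℤ) + n * ((n : ℤ) - a) := if_pos rfl

lemma ff1 (n a : ℕ) : ff n 1 a = (a : ℤ) ^ 2 + n * ((n : ℤ) - a) ^ 2 := if_neg one_ne_zero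

lemma zf_eq (n p : ℕ) : (ZF {0, 1} (ff n) p).card = nu n p := by
  classical
  unfold ZF nu
  congr 1
  ext c
  simp [ff0, ff1]

lemma V_eq (n : ℕ) (z : ℝ) : V n z = VV (ZF {0, 1} (ff n)) 0 ⌊z⌋₊ := by
  unfold V VV
  apply Finset.prod_congr rfl
  intro p _
  rw [zf_eq]

lemma cast0 {n a : ℕ} (h : a ≤ n) : ((a + n * (n - a) : ℕ) : ℤ) = ff n 0 a := by
  rw [ff0]
  push_cast [Nat.cast_sub h]
  ring

lemma cast1 {n a : ℕ} (h : a ≤ n) : ((a ^ 2 + n * (n - a) ^ 2 : ℕ) : ℤ) = ff n 1 a := by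
  rw [ff1]
  push_cast [Nat.cast_sub h]
  ring

lemma rough_iff (n : ℕ) (hn : 1 ≤ n) (z : ℝ) (a : ℕ) :
    RoughF {0, 1} (ff n) (n - 1) z a ↔ Rough n z a := by
  unfold RoughF Rough
  constructor
  · rintro ⟨h1, h2, h3⟩
    refine ⟨h1, by omega, ?_⟩
    have ha : a ≤ n := by omega
    rintro p hp (hd | hd)
    · apply h3 0 (by simp) p hp
      rw [← cast0 ha]
      exact_mod_cast hd
    · apply h3 1 (by simp) p hp
      rw [← cast1 ha]
      exact_mod_cast hd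
  · rintro ⟨h1, h2, h3⟩
    refine ⟨h1, by omega, ?_⟩
    have ha : a ≤ n := by omega
    intro e he p hp hd
    rw [mem_insert, mem_singleton] at he
    apply h3 p hp
    rcases he with rfl | rfl
    · left
      rw [← cast0 ha] at hd
      exact_mod_cast hd
    · right
      rw [← cast1 ha] at hd
      exact_mod_cast hd

lemma per (n : ℕ) : Per {0, 1} (ff n) := by
  intro e he p a _
  apply dvd_iff_dvd_of_dvd_sub
  have h : ((a % p : ℕ) : ℤ) ≡ (a : ℤ) [ZMOD (p : ℤ)] := by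
    push_cast
    exact Int.mod_modEq _ _
  have h1 : (n : ℤ) - ((a % p : ℕ) : ℤ) ≡ (n : ℤ) - a [ZMOD (p : ℤ)] := Int.ModEq.sub_left (n : ℤ) h
  rw [mem_insert, mem_singleton] at he
  rcases he with rfl | rfl
  · rw [ff0, ff0]
    exact (h.add (Int.ModEq.mul_left (n : ℤ) h1)).dvd
  · rw [ff1, ff1]
    exact ((h.pow 2).add (Int.ModEq.mul_left (n : ℤ) (h1.pow 2))).dvd

lemma not_dvd {p a b : ℕ} (ha : a < p) (hb : b < p) (hab : a ≠ b) : ¬ (p : ℤ) ∣ (a : ℤ) - b := by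
  intro h
  have h1 : |(a : ℤ) - b| < p := by
    rw [abs_lt]
    constructor <;> omega
  have := Int.eq_zero_of_abs_lt_dvd h h1
  omega

open Classical in
lemma one_root (n : ℕ) {p : ℕ} (hp : p.Prime) :
    ((range p).filter (fun c : ℕ => (p : ℤ) ∣ ff n 0 c)).card ≤ 1 := by
  rw [Finset.card_le_one]
  intro a ha b hb
  rw [mem_filter, mem_range] at ha hb
  by_contra hab
  have hpz : Prime (p : ℤ) := Nat.prime_iff_prime_int.1 hp
  have h1 : (p : ℤ) ∣ ((a : ℤ) - b) * (1 - n) := by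
    have h2 : ((a : ℤ) - b) * (1 - n) = ff n 0 a - ff n 0 b := by
      rw [ff0, ff0]
      ring
    rw [h2]
    exact dvd_sub ha.2 hb.2
  have h2 := (hpz.dvd_or_dvd h1).resolve_left (not_dvd ha.1 hb.1 hab)
  have h3 : (p : ℤ) ∣ 1 := by
    have h4 : (1 : ℤ) = ff n 0 a + (1 - n) * (1 + n - a) := by
      rw [ff0]
      ring
    rw [h4]
    exact dvd_add ha.2 (Dvd.dvd.mul_right h2 _)
  have h4 : p ∣ 1 := by exact_mod_cast h3
  exact hp.one_lt.ne' (Nat.dvd_one.1 h4)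

open Classical in
lemma two_roots (n : ℕ) {p : ℕ} (hp : p.Prime) :
    ((range p).filter (fun c : ℕ => (p : ℤ) ∣ ff n 1 c)).card ≤ 2 := by
  by_cases hp2 : p = 2
  · rw [hp2]
    exact (card_filter_le _ _).trans (by rw [card_range])
  by_contra hcon
  push Not at hcon
  obtain ⟨a, ha, b, hb, c, hc, hab, hac, hbc⟩ := Finset.two_lt_card.1 hcon
  rw [mem_filter, mem_range] at ha hb hc
  have hpz : Prime (p : ℤ) := Nat.prime_iff_prime_int.1 hp
  have key : ∀ x y : ℕ, x < p → y < p → x ≠ y → (p : ℤ) ∣ ff n 1 x → (p : ℤ) ∣ ff n 1 y →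
      (p : ℤ) ∣ (1 + (n : ℤ)) * (x + y) - 2 * n ^ 2 := by
    intro x y hx hy hxy h1 h2
    have h3 : (p : ℤ) ∣ ((x : ℤ) - y) * ((1 + (n : ℤ)) * (x + y) - 2 * n ^ 2) := by
      have h4 : ((x : ℤ) - y) * ((1 + (n : ℤ)) * (x + y) - 2 * n ^ 2) = ff n 1 x - ff n 1 y := by
        rw [ff1, ff1]
        ring
      rw [h4]
      exact dvd_sub h1 h2
    exact (hpz.dvd_or_dvd h3).resolve_left (not_dvd hx hy hxy)
  have h1 := key a b ha.1 hb.1 hab ha.2 hb.2
  have h2 := key a c ha.1 hc.1 hac ha.2 hc.2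
  have h3 : (p : ℤ) ∣ ((b : ℤ) - c) * (1 + n) := by
    have h4 : ((b : ℤ) - c) * (1 + n) = ((1 + (n : ℤ)) * (a + b) - 2 * n ^ 2) -
        ((1 + (n : ℤ)) * (a + c) - 2 * n ^ 2) := by ring
    rw [h4]
    exact dvd_sub h1 h2
  have h5 := (hpz.dvd_or_dvd h3).resolve_left (not_dvd hb.1 hc.1 hbc)
  -- `p ∣ n + 1`, hence `p ∣ 2`
  have h6 : (p : ℤ) ∣ 2 := by
    have h7 : (2 : ℤ) = (1 + (n : ℤ)) * ((a + b) - 2 * n + 2) -
        ((1 + (n : ℤ)) * (a + b) - 2 * n ^ 2) := by ring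
    rw [h7]
    exact dvd_sub (Dvd.dvd.mul_right h5 _) h1
  have h7 : p ∣ 2 := by exact_mod_cast h6
  exact hp2 ((Nat.prime_dvd_prime_iff_eq hp Nat.prime_two).1 h7)

lemma card_le (n : ℕ) (p : ℕ) (hp : p.Prime) :
    (ZF {0, 1} (ff n) p).card ≤ 3 ∧ (ZF {0, 1} (ff n) p).card < p := by
  classical
  constructor
  · have h1 : ZF {0, 1} (ff n) p ⊆ (range p).filter (fun c : ℕ => (p : ℤ) ∣ ff n 0 c) ∪
        (range p).filter (fun c : ℕ => (p : ℤ) ∣ ff n 1 c) := by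
      intro c hc
      obtain ⟨h1, e, he, hd⟩ := mem_filter.1 hc
      rw [mem_insert, mem_singleton] at he
      rw [mem_union, mem_filter, mem_filter]
      rcases he with h2 | h2
      · left
        rw [h2] at hd
        exact ⟨h1, hd⟩
      · right
        rw [h2] at hd
        exact ⟨h1, hd⟩
    refine (card_le_card h1).trans ((card_union_le _ _).trans ?_)
    have h2 := one_root n hp
    have h3 := two_roots n hp
    omega
  · -- the class `0` or `1` is no root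
    have hpz : Prime (p : ℤ) := Nat.prime_iff_prime_int.1 hp
    obtain ⟨c0, hc0, h0, h1⟩ : ∃ c0 : ℕ, c0 < p ∧ ¬ (p : ℤ) ∣ ff n 0 c0 ∧ ¬ (p : ℤ) ∣ ff n 1 c0 := by
      by_cases hn : (p : ℤ) ∣ n
      · have hp1 : ¬ (p : ℤ) ∣ 1 := by
          intro h
          have h4 : p ∣ 1 := by exact_mod_cast h
          exact hp.one_lt.ne' (Nat.dvd_one.1 h4)
        refine ⟨1, hp.one_lt, ?_, ?_⟩
        · intro h
          apply hp1
          rw [ff0] at h
          have h2 : (1 : ℤ) = (((1 : ℕ) : ℤ) + n * ((n : ℤ) - (1 : ℕ))) - n * ((n : ℤ) - 1) := by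
            push_cast
            ring
          rw [h2]
          exact dvd_sub h (Dvd.dvd.mul_right hn _)
        · intro h
          apply hp1
          rw [ff1] at h
          have h2 : (1 : ℤ) = (((1 : ℕ) : ℤ) ^ 2 + n * ((n : ℤ) - (1 : ℕ)) ^ 2) -
              n * ((n : ℤ) - 1) ^ 2 := by
            push_cast
            ring
          rw [h2]
          exact dvd_sub h (Dvd.dvd.mul_right hn _)
      · refine ⟨0, hp.pos, ?_, ?_⟩
        · intro h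
          rw [ff0] at h
          have h2 : ((0 : ℕ) : ℤ) + n * ((n : ℤ) - (0 : ℕ)) = (n : ℤ) ^ 2 := by
            push_cast
            ring
          rw [h2] at h
          exact hn (hpz.dvd_of_dvd_pow h)
        · intro h
          rw [ff1] at h
          have h2 : ((0 : ℕ) : ℤ) ^ 2 + n * ((n : ℤ) - (0 : ℕ)) ^ 2 = (n : ℤ) ^ 3 := by
            push_cast
            ring
          rw [h2] at h
          exact hn (hpz.dvd_of_dvd_pow h)
    have h2 : ZF {0, 1} (ff n) p ⊆ (range p).erase c0 := by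
      intro c hc
      obtain ⟨h3, e, he, hd⟩ := mem_filter.1 hc
      rw [mem_erase]
      refine ⟨?_, h3⟩
      rintro rfl
      rw [mem_insert, mem_singleton] at he
      rcases he with h4 | h4
      · rw [h4] at hd
        exact h0 hd
      · rw [h4] at hd
        exact h1 hd
    have h3 := card_le_card h2
    rw [card_erase_of_mem (mem_range.2 hc0), card_range] at h3
    have := hp.pos
    omega

/-- **Splittings `n = x + y` with `x + n y`, `x² + n y²` almost prime.** -/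
theorem result : ∃ (κ₀ c : ℝ) (r : ℕ), 0 < κ₀ ∧ 0 < c ∧ ∀ k : ℕ, ∀ κ ε : ℝ, 0 < κ → 0 < ε →
    ∃ B n₀ : ℕ, ∀ n : ℕ, n₀ ≤ n →
      (∀ z : ℝ, 0 ≤ z → 0 < V n z) ∧
      c * (n * V n (((n - 1 : ℕ) : ℝ) ^ κ₀)) ≤
        ({x | Almost n r (((n - 1 : ℕ) : ℝ) ^ κ₀) x}.ncard : ℝ) ∧
      (∃ a d : ℕ, 1 ≤ d ∧ (d : ℝ) ≤ Real.log n ^ B ∧
        ∀ j < k, Almost n r (((n - 1 : ℕ) : ℝ) ^ κ₀) (a + j * d)) ∧
      ∀ S : Set ℕ, (∀ x ∈ S, Rough n (((n - 1 : ℕ) : ℝ) ^ κ) x) →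
        ({x ∈ S | ¬ InProgression (k + 1) (Real.log n ^ B) S x}.ncard : ℝ) ≤
          ε * (n * V n (((n - 1 : ℕ) : ℝ) ^ κ)) := by
  obtain ⟨κ₀, c, r, hκ₀, hc, H⟩ := PolyV.main 3 4
  refine ⟨κ₀, c / 2, r, hκ₀, by positivity, ?_⟩
  intro k κ ε hκ hε
  obtain ⟨B, X₀, h⟩ := H k κ ε hκ hε
  refine ⟨B, X₀ + 5, ?_⟩
  intro n hn
  have hcard := card_le n
  obtain ⟨h1, h2, h3, h4⟩ := h (n - 1) (by omega) {0, 1} (ff n) (per n) hcard
  have hn5 : 5 ≤ n := by omega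
  have hn1 : 1 ≤ n := by omega
  have hcast : ((n - 1 : ℕ) : ℝ) = (n : ℝ) - 1 := by
    rw [Nat.cast_sub hn1, Nat.cast_one]
  have hnr : (5 : ℝ) ≤ n := by exact_mod_cast hn5
  have hlog : Real.log ((n - 1 : ℕ) : ℝ) ^ B ≤ Real.log n ^ B := by
    apply pow_le_pow_left₀ (Real.log_nonneg (by rw [hcast]; linarith))
    apply Real.log_le_log (by rw [hcast]; linarith)
    rw [hcast]
    linarith
  have hV : ∀ y : ℝ, 0 ≤ y → 0 < V n y := fun y hy => by
    rw [V_eq]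
    exact VV_pos (adm_of hcard y) hy 0
  -- the number of prime factors
  have halm : ∀ a : ℕ, RoughF {0, 1} (ff n) (n - 1) (((n - 1 : ℕ) : ℝ) ^ κ₀) a →
      Almost n r (((n - 1 : ℕ) : ℝ) ^ κ₀) a := by
    intro a ha
    have hr := (rough_iff n hn1 _ a).1 ha
    have han : a ≤ n := hr.2.1.le
    have e1 : ((n - 1 : ℕ) : ℤ) = (n : ℤ) - 1 := by omega
    have ha0 : (1 : ℤ) ≤ a := by exact_mod_cast hr.1
    have ha1 : (a : ℤ) ≤ (n : ℤ) - 1 := by
      have := hr.2.1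
      omega
    have hnz : (5 : ℤ) ≤ n := by exact_mod_cast hn5
    set N : ℤ := (n : ℤ) - 1 with hN
    have hN4 : (4 : ℤ) ≤ N := by omega
    have hnN : (n : ℤ) = N + 1 := by omega
    have hb0 : 0 ≤ (n : ℤ) - a := by omega
    have hb1 : (n : ℤ) - a ≤ N := by omega
    have hN2 : 0 ≤ N ^ 2 := by positivity
    have hNN : 4 * N ≤ N ^ 2 := by nlinarith
    have hN3 : 4 * N ^ 2 ≤ N ^ 3 := by nlinarith
    have hN44 : 4 * N ^ 3 ≤ N ^ 4 := by nlinarith [mul_nonneg (sub_nonneg.2 hN4) (show (0 : ℤ) ≤ N ^ 3 by positivity)]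
    have hsq : ((n : ℤ) - a) ^ 2 ≤ N ^ 2 := pow_le_pow_left₀ hb0 hb1 2
    have hsq' : (a : ℤ) ^ 2 ≤ N ^ 2 := pow_le_pow_left₀ (by linarith) ha1 2
    refine ⟨hr, ?_, ?_⟩
    · have h5 := h1 (ff n 0 a) (by
        rw [e1, ff0]
        have h6 : 0 ≤ (n : ℤ) * ((n : ℤ) - a) := mul_nonneg (by linarith) hb0
        have h7 : (n : ℤ) * ((n : ℤ) - a) ≤ (N + 1) * N := by
          rw [hnN] at hb1 hb0 ⊢
          exact mul_le_mul_of_nonneg_left hb1 (by linarith)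
        rw [abs_le]
        constructor
        · nlinarith
        · nlinarith) (fun p hp hd => ha.2.2 0 (by simp) p hp hd)
      rw [← cast0 han, Int.natAbs_natCast] at h5
      exact h5
    · have h5 := h1 (ff n 1 a) (by
        rw [e1, ff1]
        have h6 : 0 ≤ (n : ℤ) * ((n : ℤ) - a) ^ 2 := mul_nonneg (by linarith) (by positivity)
        have h7 : (n : ℤ) * ((n : ℤ) - a) ^ 2 ≤ (N + 1) * N ^ 2 := by
          have h8 : (n : ℤ) * ((n : ℤ) - a) ^ 2 ≤ n * N ^ 2 :=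
            mul_le_mul_of_nonneg_left hsq (by linarith)
          calc (n : ℤ) * ((n : ℤ) - a) ^ 2 ≤ n * N ^ 2 := h8
            _ = (N + 1) * N ^ 2 := by rw [hnN]
        have h9 : 0 ≤ (a : ℤ) ^ 2 := by positivity
        have h10 : (N + 1) * N ^ 2 = N ^ 3 + N ^ 2 := by ring
        have h11 : 0 ≤ N ^ 3 := by positivity
        rw [abs_le]
        constructor
        · linarith
        · linarith) (fun p hp hd => ha.2.2 1 (by simp) p hp hd)
      rw [← cast1 han, Int.natAbs_natCast] at h5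
      exact h5
  refine ⟨hV, ?_, ?_, ?_⟩
  · have hfin : {a | Almost n r (((n - 1 : ℕ) : ℝ) ^ κ₀) a}.Finite :=
      (Set.finite_Icc 0 n).subset (fun m hm => ⟨Nat.zero_le _, hm.1.2.1.le⟩)
    have h5 : ({m | RoughF {0, 1} (ff n) (n - 1) (((n - 1 : ℕ) : ℝ) ^ κ₀) m}.ncard : ℝ) ≤
        ({a | Almost n r (((n - 1 : ℕ) : ℝ) ^ κ₀) a}.ncard : ℝ) := by
      rw [Nat.cast_le]
      exact Set.ncard_le_ncard (fun a ha => halm a ha) hfin
    refine le_trans ?_ (h2.trans h5)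
    rw [V_eq]
    have h6 : 0 < VV (ZF {0, 1} (ff n)) 0 ⌊((n - 1 : ℕ) : ℝ) ^ κ₀⌋₊ :=
      VV_pos (adm_of hcard _) (by positivity) 0
    have h7 : (n : ℝ) / 2 ≤ ((n - 1 : ℕ) : ℝ) := by
      rw [hcast]
      linarith
    have h8 : (n : ℝ) / 2 * VV (ZF {0, 1} (ff n)) 0 ⌊((n - 1 : ℕ) : ℝ) ^ κ₀⌋₊ ≤
        ((n - 1 : ℕ) : ℝ) * VV (ZF {0, 1} (ff n)) 0 ⌊((n - 1 : ℕ) : ℝ) ^ κ₀⌋₊ :=
      mul_le_mul_of_nonneg_right h7 h6.le
    have h9 := mul_le_mul_of_nonneg_left h8 hc.le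
    linarith
  · obtain ⟨a, d, i1, i2, i3⟩ := h3
    exact ⟨a, d, i1, i2.trans hlog, fun j hj => halm _ (i3 j hj)⟩
  · intro S hS
    have h5 := h4 S (fun a ha => (rough_iff n hn1 _ a).2 (hS a ha))
    have h6 : ({a ∈ S | ¬ InProgression (k + 1) (Real.log n ^ B) S a}.ncard : ℝ) ≤
        ({m ∈ S | ¬ InP (k + 1) (Real.log ((n - 1 : ℕ) : ℝ) ^ B) S m}.ncard : ℝ) := by
      rw [Nat.cast_le]
      apply Set.ncard_le_ncard
      · intro m hm
        refine ⟨hm.1, ?_⟩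
        intro hAP
        apply hm.2
        obtain ⟨a, d, i1, i2, i3⟩ := hAP
        exact ⟨a, d, i1, i2.trans hlog, i3⟩
      · exact ((Set.finite_Icc 0 n).subset (fun m hm => ⟨Nat.zero_le _, (hS m hm).2.1.le⟩)).subset
          (fun m hm => hm.1)
    refine h6.trans (h5.trans ?_)
    rw [V_eq]
    have h7 : 0 < VV (ZF {0, 1} (ff n)) 0 ⌊((n - 1 : ℕ) : ℝ) ^ κ⌋₊ :=
      VV_pos (adm_of hcard _) (by positivity) 0
    have h8 : ((n - 1 : ℕ) : ℝ) ≤ n := by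
      rw [hcast]
      linarith
    exact mul_le_mul_of_nonneg_left (mul_le_mul_of_nonneg_right h8 h7.le) hε.le

end Pool.Agent.Results.MP_5e9b96_nt.AlmostPrimePairs
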